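import Pool.Agent.TH339.MY5

/-!
# Pairs of solutions of a nonautonomous system: relaxation along the difference

Helper file for `MP_1775bc_an`.
-/

open Set Filter Topology MeasureTheory

namespace Pool.Agent.Y750.MY

open Pool.Agent.TH339.MY

variable {E : Type*} [NormedAddCommGroup E] [NormedSpace ℝ E]

/-- Regularity hypotheses without `f(t,0) = 0`. -/
structure Reg0 (f : ℝ → E → E) : Prop where
  cont : ContinuousOn (Function.uncurry f) (Ici 0 ×ˢ univ)
  diff : ∀ t, 0 ≤ t → ContDiff ℝ 1 (f t)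
  jcont : ContinuousOn (fun p : ℝ × E => fderiv ℝ (f p.1) p.2) (Ici 0 ×ˢ univ)
  pwc : ∀ ω : ℝ → E, PiecewiseContinuous ω →
      PiecewiseContinuous (fun t => fderiv ℝ (f t) (ω t))

/-- The system for the difference to `y`. -/
def sh (f : ℝ → E → E) (y : ℝ → E) : ℝ → E → E := fun t z => f t (z + y t) - f t (y t)

lemma sh_fderiv (f : ℝ → E → E) (y : ℝ → E) (t : ℝ) (z : E) :
    fderiv ℝ (sh f y t) z = fderiv ℝ (f t) (z + y t) := by
  unfold sh
  rw [fderiv_sub_const, fderiv_comp_add_right]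

omit [NormedSpace ℝ E] in
lemma pwc_add {ω y : ℝ → E} (hω : PiecewiseContinuous ω) (hy : Continuous y) :
    PiecewiseContinuous (fun t => ω t + y t) := by
  obtain ⟨D, hD, hc, hr, hl⟩ := hω
  refine ⟨D, hD, fun t ht htD => (hc t ht htD).add hy.continuousWithinAt, fun t ht => ?_,
    fun t ht => ?_⟩
  · obtain ⟨l, hl⟩ := hr t ht
    exact ⟨l + y t, hl.add ((hy.tendsto t).mono_left nhdsWithin_le_nhds)⟩
  · obtain ⟨l, hl⟩ := hl t ht
    exact ⟨l + y t, hl.add ((hy.tendsto t).mono_left nhdsWithin_le_nhds)⟩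

lemma sh_reg {f : ℝ → E → E} (hf : Reg0 f) {y : ℝ → E} (hy : Continuous y) : Reg (sh f y) := by
  have h1 : Continuous fun p : ℝ × E => (p.1, p.2 + y p.1) := by fun_prop
  have h2 : Continuous fun p : ℝ × E => (p.1, y p.1) := by fun_prop
  refine ⟨?_, ?_, ?_, ?_⟩
  · have a1 : ContinuousOn (fun p : ℝ × E => Function.uncurry f (p.1, p.2 + y p.1))
        (Ici 0 ×ˢ univ) :=
      hf.cont.comp h1.continuousOn fun p hp => ⟨hp.1, mem_univ _⟩
    have a2 : ContinuousOn (fun p : ℝ × E => Function.uncurry f (p.1, y p.1))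
        (Ici 0 ×ˢ univ) :=
      hf.cont.comp h2.continuousOn fun p hp => ⟨hp.1, mem_univ _⟩
    exact a1.sub a2
  · intro t ht
    have := hf.diff t ht
    unfold sh
    exact (this.comp (contDiff_id.add contDiff_const)).sub contDiff_const
  · simp only [sh_fderiv]
    exact hf.jcont.comp h1.continuousOn fun p hp => ⟨hp.1, mem_univ _⟩
  · intro t _
    simp [sh]

lemma sh_pwc {f : ℝ → E → E} (hf : Reg0 f) {y : ℝ → E} (hy : Continuous y) :
    ∀ ω : ℝ → E, PiecewiseContinuous ω →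
      PiecewiseContinuous (fun t => fderiv ℝ (sh f y t) (ω t)) := by
  intro ω hω
  simp only [sh_fderiv]
  exact hf.pwc _ (pwc_add hω hy)

/-- **Relaxation along the difference of two solutions.** -/
lemma relax_pair [CompleteSpace E] {f : ℝ → E → E} (hf : Reg0 f) {s : ℝ} (hs : 0 ≤ s)
    {x y : ℝ → E} (hx : IsSolution f s x) (hy : IsSolution f s y) {ε : ℝ} (hε : 0 < ε) :
    ∃ ω : ℝ → E, PiecewiseContinuous ω ∧
      (∀ t, s ≤ t → ∃ r ∈ Icc (0:ℝ) 1, ω t = r • (x t - y t) + y t) ∧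
      ∀ T, IsEvolution (fun t => fderiv ℝ (f t) (ω t)) T → ∀ t, s ≤ t →
        ∃ w, ‖w - (x s - y s)‖ ≤ ε ∧ T t s w = x t - y t := by
  set yt : ℝ → E := fun t => y (max s t) with hyt
  have hytc : Continuous yt :=
    hy.continuousOn.comp_continuous (by fun_prop) fun t => mem_Ici.mpr (le_max_left _ _)
  have hyte : ∀ t, s ≤ t → yt t = y t := by
    intro t ht; simp only [hyt, max_eq_right ht]
  have hz : IsSolution (sh f yt) s (fun t => x t - y t) := by
    intro t ht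
    have h1 := (hx t ht).sub (hy t ht)
    have h2 : sh f yt t (x t - y t) = f t (x t) - f t (y t) := by
      simp only [sh, hyte t ht, sub_add_cancel]
    rw [h2]
    exact h1
  obtain ⟨ω, hω, hωs, hωT⟩ := relaxation (sh_reg hf hytc) (sh_pwc hf hytc) hs hz hε
  refine ⟨fun t => ω t + yt t, pwc_add hω hytc, fun t ht => ?_, fun T hT t ht => ?_⟩
  · obtain ⟨r, hr, hr'⟩ := hωs t ht
    exact ⟨r, hr, by simp only [hr', hyte t ht]⟩
  · apply hωT T _ t ht
    have h3 : (fun t => fderiv ℝ (sh f yt t) (ω t)) = fun t => fderiv ℝ (f t) (ω t + yt t) := by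
      funext t
      rw [sh_fderiv]
    rw [h3]
    exact hT

/-- **Gluing.** If the linearizations along a class of curves violate every bound, then there is
one curve along which the linearization violates every bound. -/
lemma glue {f : ℝ → E → E} (hf : Reg0 f) (Cl : ℝ → ℝ → (ℝ → E) → Prop)
    (hB : ∀ a : ℝ, ∃ B : ℝ, 0 ≤ B ∧ ∀ s t ω, 0 ≤ s → Cl s t ω → ∀ u ∈ Ico s t, u ≤ a →
      ‖fderiv ℝ (f u) (ω u)‖ ≤ B)
    (hE : ∀ ω : ℝ → E, PiecewiseContinuous ω →
      ∃ T, IsEvolution (fun t => fderiv ℝ (f t) (ω t)) T)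
    (hG : ∀ ω : ℝ → E, PiecewiseContinuous ω → ∀ T,
      IsEvolution (fun t => fderiv ℝ (f t) (ω t)) T →
      ∃ K γ ε : ℝ, 1 ≤ K ∧ 0 ≤ ε ∧ ε < γ ∧
        ∀ t s, 0 ≤ s → s ≤ t → ‖T t s‖ ≤ K * Real.exp (-γ * (t - s) + ε * s)) :
    ∃ K γ ε : ℝ, 1 ≤ K ∧ 0 ≤ ε ∧ ε < γ ∧ ∀ s t ω, 0 ≤ s → s ≤ t → PiecewiseContinuous ω →
      Cl s t ω → ∀ T, IsEvolution (fun t => fderiv ℝ (f t) (ω t)) T → ∀ v,
      ‖T t s v‖ ≤ K * Real.exp (-γ * (t - s) + ε * s) * ‖v‖ := by
  by_contra hcon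
  push Not at hcon
  -- the countable family of bounds
  let α := {q : ℕ × ℚ × ℚ // 0 ≤ q.2.1 ∧ q.2.1 < q.2.2}
  have : Nonempty α := ⟨⟨(0, 0, 1), by norm_num⟩⟩
  obtain ⟨p, hp⟩ := exists_surjective_nat α
  -- violations after any time
  have step1 : ∀ (a : ℝ) (n : ℕ), 0 ≤ a → ∃ (ω : ℝ → E) (T : ℝ → ℝ → E →L[ℝ] E) (s b : ℝ) (v : E),
      PiecewiseContinuous ω ∧ IsEvolution (fun t => fderiv ℝ (f t) (ω t)) T ∧ a ≤ s ∧ s ≤ b ∧
      a + 1 ≤ b ∧ ((p n).1.1 : ℝ) *
        Real.exp (-((p n).1.2.2 : ℝ) * (b - s) + ((p n).1.2.1 : ℝ) * s) * ‖v‖ < ‖T b s v‖ := by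
    intro a n ha
    obtain ⟨B, hB0, hBb⟩ := hB (a + 1)
    set k : ℝ := ((p n).1.1 : ℝ) with hk
    set ε : ℝ := ((p n).1.2.1 : ℝ) with hε
    set γ : ℝ := ((p n).1.2.2 : ℝ) with hγ
    have hk0 : 0 ≤ k := Nat.cast_nonneg _
    have hε0 : 0 ≤ ε := by
      rw [hε]; exact_mod_cast (p n).2.1
    have hεγ : ε < γ := by
      rw [hε, hγ]; exact_mod_cast (p n).2.2
    have hγ0 : 0 < γ := lt_of_le_of_lt hε0 hεγ
    have ha1 : 0 ≤ a + 1 := by linarith
    set K : ℝ := (k + 1) * Real.exp ((B + γ + ε) * (a + 1)) with hK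
    have hexp1 : 1 ≤ Real.exp ((B + γ + ε) * (a + 1)) := Real.one_le_exp (by positivity)
    have hK1 : 1 ≤ K := by
      rw [hK]
      nlinarith
    obtain ⟨s, t, ω, hs, hst, hω, hC, T, hT, v, hv⟩ := hcon K γ ε hK1 hε0 hεγ
    have hA := hf.pwc ω hω
    have hkK : k ≤ K := by rw [hK]; nlinarith
    by_cases hsa : a + 1 ≤ s
    · refine ⟨ω, T, s, t, v, hω, hT, by linarith, hst, by linarith, lt_of_le_of_lt ?_ hv⟩
      gcongr
    · push Not at hsa
      have hv0 : 0 < ‖v‖ := by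
        rw [norm_pos_iff]
        rintro rfl
        simp at hv
      have hta : a + 1 < t := by
        by_contra hlt
        push Not at hlt
        have h1 := (hT.iSol hA hs v).fwd_bound hA hs hst (β := B)
          (fun u hu => hBb s t ω hs hC u hu (hu.2.le.trans hlt)) hB0
        rw [hT.self hs] at h1
        have h2 : Real.exp (B * (t - s)) ≤ K * Real.exp (-γ * (t - s) + ε * s) := by
          calc Real.exp (B * (t - s)) ≤ Real.exp ((B + γ + ε) * (a + 1) + (-γ * (t - s) + ε * s)) := by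
                apply Real.exp_le_exp.mpr
                have e1 : t - s ≤ a + 1 := by linarith
                have e2 : 0 ≤ t - s := by linarith
                nlinarith [mul_le_mul_of_nonneg_left e1 hB0, mul_le_mul_of_nonneg_left e1 hγ0.le,
                  mul_nonneg hε0 hs, mul_nonneg hε0 ha1]
            _ = Real.exp ((B + γ + ε) * (a + 1)) * Real.exp (-γ * (t - s) + ε * s) := Real.exp_add _ _
            _ ≤ K * Real.exp (-γ * (t - s) + ε * s) := by
                gcongr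
                rw [hK]
                nlinarith
        have h3 : Real.exp (B * (t - s)) * ‖v‖ ≤ K * Real.exp (-γ * (t - s) + ε * s) * ‖v‖ :=
          mul_le_mul_of_nonneg_right h2 hv0.le
        linarith
      refine ⟨ω, T, a + 1, t, T (a + 1) s v, hω, hT, by linarith, hta.le, hta.le, ?_⟩
      have h1 := (hT.iSol hA hs v).fwd_bound hA hs hsa.le (β := B)
        (fun u hu => hBb s t ω hs hC u ⟨hu.1, hu.2.trans hta⟩ hu.2.le) hB0
      rw [hT.self hs] at h1
      rw [hT.cocycle hA ha1 hs (ha1.trans hta.le) v]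
      refine lt_of_le_of_lt ?_ hv
      calc k * Real.exp (-γ * (t - (a + 1)) + ε * (a + 1)) * ‖T (a + 1) s v‖
          ≤ k * Real.exp (-γ * (t - (a + 1)) + ε * (a + 1)) *
            (Real.exp (B * (a + 1 - s)) * ‖v‖) :=
            mul_le_mul_of_nonneg_left h1 (by positivity)
        _ = k * (Real.exp (-γ * (t - (a + 1)) + ε * (a + 1)) * Real.exp (B * (a + 1 - s))) * ‖v‖ := by
            ring
        _ = k * (Real.exp (-γ * (t - (a + 1)) + ε * (a + 1) + B * (a + 1 - s))) * ‖v‖ := by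
            rw [Real.exp_add (-γ * (t - (a + 1)) + ε * (a + 1))]
        _ ≤ k * Real.exp ((B + γ + ε) * (a + 1) + (-γ * (t - s) + ε * s)) * ‖v‖ := by
            refine mul_le_mul_of_nonneg_right (mul_le_mul_of_nonneg_left
              (Real.exp_le_exp.mpr ?_) hk0) (norm_nonneg _)
            have e2 : 0 ≤ B * s := mul_nonneg hB0 hs
            have e3 : 0 ≤ γ * s := mul_nonneg hγ0.le hs
            have e4 : 0 ≤ ε * s := mul_nonneg hε0 hs
            nlinarith
        _ = k * Real.exp ((B + γ + ε) * (a + 1)) * Real.exp (-γ * (t - s) + ε * s) * ‖v‖ := by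
            rw [Real.exp_add]; ring
        _ ≤ K * Real.exp (-γ * (t - s) + ε * s) * ‖v‖ := by
            gcongr
            rw [hK]
            nlinarith
  choose! W TT ss bb vv hW hTT hss hsb hbb hgrow using step1
  let τ : ℕ → ℝ := fun k => Nat.rec 0 (fun k a => bb a k) k
  have hτ0 : τ 0 = 0 := rfl
  have hτs : ∀ k, τ (k + 1) = bb (τ k) k := fun k => rfl
  have hτge : ∀ k, 0 ≤ τ k := by
    intro k
    induction k with
    | zero => exact le_rfl
    | succ k ih =>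
      rw [hτs]
      have := hbb (τ k) k ih
      linarith
  have hτ1 : ∀ k, τ k + 1 ≤ τ (k + 1) := fun k => by
    rw [hτs]; exact hbb _ _ (hτge k)
  have hmono : StrictMono τ := strictMono_nat_of_lt_succ fun k => by linarith [hτ1 k]
  have hlin : ∀ k : ℕ, (k : ℝ) ≤ τ k := by
    intro k
    induction k with
    | zero => simp [hτ0]
    | succ k ih => have := hτ1 k; push_cast; linarith
  have htop : Tendsto τ atTop atTop :=
    tendsto_atTop_mono hlin tendsto_natCast_atTop_atTop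
  obtain ⟨ω, hω0, hω1⟩ := exists_concat hmono (fun k => W (τ k) k)
  have hωp : PiecewiseContinuous ω :=
    pwc_concat hmono htop (fun k => hW (τ k) k (hτge k)) hω0 hω1
  obtain ⟨T, hT⟩ := hE ω hωp
  have hA := hf.pwc ω hωp
  obtain ⟨K, γ, ε, hK, hε, hεγ, hb⟩ := hG ω hωp T hT
  -- a rational bound
  obtain ⟨ε', h1, h2⟩ := exists_rat_btwn hεγ
  obtain ⟨γ', h3, h4⟩ := exists_rat_btwn h2
  obtain ⟨k, hk⟩ := exists_nat_ge K
  have hε'0 : (0 : ℚ) ≤ ε' := by
    have : (0 : ℝ) < (ε' : ℝ) := lt_of_le_of_lt hε h1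
    exact_mod_cast this.le
  have hεγ' : ε' < γ' := by exact_mod_cast h3
  obtain ⟨n, hn⟩ := hp ⟨(k, ε', γ'), hε'0, hεγ'⟩
  have hg := hgrow (τ n) n (hτge n)
  rw [hn] at hg
  simp only at hg
  rw [← hτs] at hg
  set s := ss (τ n) n with hs
  have hs1 : τ n ≤ s := hss _ _ (hτge n)
  have hs2 : s ≤ τ (n + 1) := by rw [hτs]; exact hsb _ _ (hτge n)
  have hs0 : 0 ≤ s := (hτge n).trans hs1
  have hloc : T (τ (n + 1)) s (vv (τ n) n) = TT (τ n) n (τ (n + 1)) s (vv (τ n) n) := by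
    apply hT.loc hA (hf.pwc _ (hW _ _ (hτge n))) (hTT _ _ (hτge n)) hs0 hs2
    intro u hu
    rw [hω1 n u ⟨hs1.trans hu.1, hu.2⟩]
  rw [← hloc] at hg
  have h5 := (T (τ (n + 1)) s).le_opNorm (vv (τ n) n)
  have h6 := hb (τ (n + 1)) s hs0 hs2
  have h7 : K * Real.exp (-γ * (τ (n + 1) - s) + ε * s) ≤
      (k : ℝ) * Real.exp (-(γ' : ℝ) * (τ (n + 1) - s) + (ε' : ℝ) * s) := by
    have : 0 ≤ τ (n + 1) - s := by linarith
    have e1 : Real.exp (-γ * (τ (n + 1) - s) + ε * s) ≤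
        Real.exp (-(γ' : ℝ) * (τ (n + 1) - s) + (ε' : ℝ) * s) := by
      apply Real.exp_le_exp.mpr
      nlinarith
    have e2 := Real.exp_pos (-γ * (τ (n + 1) - s) + ε * s)
    have e3 : (0 : ℝ) ≤ k := Nat.cast_nonneg k
    nlinarith
  have h8 : ‖T (τ (n + 1)) s (vv (τ n) n)‖ ≤
      (k : ℝ) * Real.exp (-(γ' : ℝ) * (τ (n + 1) - s) + (ε' : ℝ) * s) * ‖vv (τ n) n‖ := by
    refine h5.trans ?_
    gcongr
    exact h6.trans h7
  linarith

end Pool.Agent.Y750.MY
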