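import Pool.Agent.Y750.MY.A

/-!
# Bounds for the solutions starting in a ball, over bounded time; main results

Helper file for `MP_1775bc_an`.
-/

open Set Filter Topology MeasureTheory

namespace Pool.Agent.Y750.MY

open Pool.Agent.TH339.MY

variable {E : Type*} [NormedAddCommGroup E] [NormedSpace ℝ E]

/-- First exit. -/
lemma exit {F : Type*} [NormedAddCommGroup F] {g : ℝ → F} {s b r : ℝ}
    (hg : ContinuousOn g (Icc s b)) (h0 : ‖g s‖ < r)
    (h : ∀ t ∈ Icc s b, (∀ u ∈ Icc s t, ‖g u‖ ≤ r) → ‖g t‖ < r) :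
    ∀ t ∈ Icc s b, ‖g t‖ < r := by
  intro t ht
  by_contra hcon
  push Not at hcon
  set S : Set ℝ := Icc s b ∩ (fun t => ‖g t‖) ⁻¹' (Ici r) with hS
  have hSc : IsClosed S :=
    ContinuousOn.preimage_isClosed_of_isClosed hg.norm isClosed_Icc isClosed_Ici
  have hSne : S.Nonempty := ⟨t, ht, hcon⟩
  have hSb : BddBelow S := ⟨s, fun u hu => hu.1.1⟩
  have hmem := hSc.csInf_mem hSne hSb
  set t₁ := sInf S with ht₁
  have hlt : ∀ u ∈ Ico s t₁, ‖g u‖ < r := by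
    intro u hu
    by_contra h
    push Not at h
    have : t₁ ≤ u := csInf_le hSb ⟨⟨hu.1, hu.2.le.trans hmem.1.2⟩, h⟩
    linarith [hu.2]
  have hst : s < t₁ := by
    rcases hmem.1.1.eq_or_lt with h1 | h1
    · have h2 : r ≤ ‖g t₁‖ := hmem.2
      rw [← h1] at h2
      linarith
    · exact h1
  have hle : ‖g t₁‖ ≤ r := by
    have h1 : Tendsto (fun u => ‖g u‖) (𝓝[Ico s t₁] t₁) (𝓝 ‖g t₁‖) :=
      ((hg t₁ hmem.1).norm).mono fun u hu => ⟨hu.1, hu.2.le.trans hmem.1.2⟩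
    have h2 : (𝓝[Ico s t₁] t₁).NeBot := by
      rw [← mem_closure_iff_nhdsWithin_neBot, closure_Ico hst.ne]
      exact ⟨hst.le, le_rfl⟩
    apply le_of_tendsto h1
    filter_upwards [self_mem_nhdsWithin] with u hu using (hlt u hu).le
  have := h t₁ hmem.1 (fun u hu => by
    rcases hu.2.eq_or_lt with h3 | h3
    · rw [h3]; exact hle
    · exact (hlt u ⟨hu.1, h3⟩).le)
  have h4 : r ≤ ‖g t₁‖ := hmem.2
  linarith

/-- Solutions near a given solution stay near it. -/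
lemma near_fwd [FiniteDimensional ℝ E] {f : ℝ → E → E} (hf : Reg0 f) {s₀ a : ℝ} (h0 : 0 ≤ s₀)
    {z : ℝ → E} (hz : IsSolution f s₀ z) :
    ∃ δ : ℝ, 0 < δ ∧ ∀ s, s₀ ≤ s → ∀ x, IsSolution f s x → ‖x s - z s‖ ≤ δ →
      ∀ t ∈ Icc s a, ‖x t - z t‖ < 1 := by
  have : ProperSpace E := FiniteDimensional.proper ℝ E
  -- a Lipschitz constant on the tube
  have hc : ContinuousOn (fun p : ℝ × E => fderiv ℝ (f p.1) (z p.1 + p.2))
      (Icc s₀ a ×ˢ Metric.closedBall (0 : E) 1) := by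
    have h1 : ContinuousOn (fun p : ℝ × E => (p.1, z p.1 + p.2))
        (Icc s₀ a ×ˢ Metric.closedBall (0 : E) 1) := by
      apply continuousOn_fst.prodMk
      apply ContinuousOn.add _ continuousOn_snd
      exact hz.continuousOn.comp continuousOn_fst fun p hp => hp.1.1
    exact hf.jcont.comp h1 fun p hp => ⟨h0.trans hp.1.1, mem_univ _⟩
  obtain ⟨L0, hL0⟩ := ((isCompact_Icc.prod (isCompact_closedBall (0 : E) 1)).image_of_continuousOn
    hc.norm).bddAbove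
  set L : ℝ := max L0 0 with hL
  have hLb : ∀ t ∈ Icc s₀ a, ∀ ξ ∈ Metric.closedBall (z t) 1, ‖fderiv ℝ (f t) ξ‖ ≤ L := by
    intro t ht ξ hξ
    have h1 := hL0 ⟨(t, ξ - z t), ⟨ht, by
      rw [mem_closedBall_zero_iff, ← dist_eq_norm]; exact hξ⟩, rfl⟩
    simp only [add_sub_cancel] at h1
    exact h1.trans (le_max_left _ _)
  have hL1 : 0 ≤ L := le_max_right _ _
  refine ⟨Real.exp (-(L * |a - s₀|)) / 2, by positivity, fun s hs x hx hd t ht => ?_⟩
  have hcx : ContinuousOn (fun t => x t - z t) (Icc s a) :=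
    (hx.continuousOn.mono fun u hu => hu.1).sub
      (hz.continuousOn.mono fun u hu => hs.trans hu.1)
  have he1 : Real.exp (-(L * |a - s₀|)) ≤ 1 := Real.exp_le_one_iff.mpr (by
    have := mul_nonneg hL1 (abs_nonneg (a - s₀)); linarith)
  refine exit (g := fun t => x t - z t) (r := 1) hcx (by linarith) ?_ t ht
  intro t ht hu
  have hLip : ∀ u ∈ Ico s t, LipschitzOnWith (Real.toNNReal L) (f u) (Metric.closedBall (z u) 1) := by
    intro u hu1
    apply Convex.lipschitzOnWith_of_nnnorm_fderiv_le (𝕜 := ℝ)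
    · intro ξ _
      exact (hf.diff u (h0.trans (hs.trans hu1.1))).differentiable one_ne_zero ξ
    · intro ξ hξ
      rw [← norm_toNNReal]
      apply Real.toNNReal_le_toNNReal
      exact hLb u ⟨hs.trans hu1.1, hu1.2.le.trans ht.2⟩ ξ hξ
    · exact convex_closedBall _ _
  have key := dist_le_of_trajectories_ODE_of_mem (v := f) (s := fun u => Metric.closedBall (z u) 1)
    (f := x) (g := z) (a := s) (b := t) (K := Real.toNNReal L)
    (δ := Real.exp (-(L * |a - s₀|)) / 2) hLip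
    (hx.continuousOn.mono fun u hu => hu.1)
    (fun u hu1 => (hx u hu1.1).mono fun v hv => hu1.1.trans hv)
    (fun u hu1 => by
      rw [Metric.mem_closedBall, dist_eq_norm]
      exact hu u ⟨hu1.1, hu1.2.le⟩)
    (hz.continuousOn.mono fun u hu => hs.trans hu.1)
    (fun u hu1 => (hz u (hs.trans hu1.1)).mono fun v hv => (hs.trans hu1.1).trans hv)
    (fun u hu1 => Metric.mem_closedBall_self zero_le_one)
    (by rw [dist_eq_norm]; exact hd) t ⟨ht.1, le_rfl⟩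
  rw [dist_eq_norm, Real.coe_toNNReal _ hL1] at key
  refine lt_of_le_of_lt key ?_
  have e1 : L * (t - s) ≤ L * |a - s₀| := by
    apply mul_le_mul_of_nonneg_left _ hL1
    have : a - s₀ ≤ |a - s₀| := le_abs_self _
    linarith [ht.2]
  have e2 : Real.exp (-(L * |a - s₀|)) * Real.exp (L * (t - s)) ≤ 1 := by
    rw [← Real.exp_add]
    apply Real.exp_le_one_iff.mpr
    linarith
  calc Real.exp (-(L * |a - s₀|)) / 2 * Real.exp (L * (t - s))
      = (Real.exp (-(L * |a - s₀|)) * Real.exp (L * (t - s))) / 2 := by ring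
    _ ≤ 1 / 2 := by linarith
    _ < 1 := by norm_num

/-- Solutions starting near a point before time `s₀` are near the point at time `s₀`. -/
lemma near_bwd [FiniteDimensional ℝ E] {f : ℝ → E → E} (hf : Reg0 f) {s₀ : ℝ} (h0 : 0 ≤ s₀)
    (x₀ : E) {δ : ℝ} (hδ : 0 < δ) (hδ1 : δ ≤ 1) :
    ∃ η : ℝ, 0 < η ∧ ∀ s, 0 ≤ s → s ≤ s₀ → s₀ - s ≤ η → ∀ x, IsSolution f s x → ‖x s - x₀‖ ≤ η →
      ∀ t ∈ Icc s s₀, ‖x t - x₀‖ < δ := by
  have : ProperSpace E := FiniteDimensional.proper ℝ E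
  have hc : ContinuousOn (Function.uncurry f) (Icc 0 s₀ ×ˢ Metric.closedBall x₀ 1) :=
    hf.cont.mono fun p hp => ⟨hp.1.1, mem_univ _⟩
  obtain ⟨M0, hM0⟩ := ((isCompact_Icc.prod (isCompact_closedBall x₀ 1)).image_of_continuousOn
    hc.norm).bddAbove
  set M : ℝ := max M0 0 with hM
  have hM1 : 0 ≤ M := le_max_right _ _
  have hMb : ∀ t ∈ Icc 0 s₀, ∀ ξ, ‖ξ - x₀‖ ≤ 1 → ‖f t ξ‖ ≤ M := by
    intro t ht ξ hξ
    have h1 := hM0 ⟨(t, ξ), ⟨ht, by rw [Metric.mem_closedBall, dist_eq_norm]; exact hξ⟩, rfl⟩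
    exact h1.trans (le_max_left _ _)
  refine ⟨δ / (2 * (M + 1)), by positivity, fun s hs hs1 hs2 x hx hd => ?_⟩
  have hη : δ / (2 * (M + 1)) ≤ δ / 2 := by
    rw [div_le_div_iff₀ (by positivity) (by norm_num)]
    nlinarith
  have hcx : ContinuousOn (fun t => x t - x₀) (Icc s s₀) :=
    (hx.continuousOn.mono fun u hu => hu.1).sub continuousOn_const
  refine exit (g := fun t => x t - x₀) (r := δ) hcx (by linarith) ?_
  intro t ht hu
  have h1 : ‖x t - x s‖ ≤ M * (t - s) := by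
    apply norm_image_sub_le_of_norm_deriv_right_le_segment (f' := fun u => f u (x u))
      (hx.continuousOn.mono fun u hu => hu.1)
      (fun u hu1 => (hx u hu1.1).mono fun v hv => hu1.1.trans hv)
      (fun u hu1 => hMb u ⟨hs.trans hu1.1, hu1.2.le.trans ht.2⟩ _
        ((hu u ⟨hu1.1, hu1.2.le⟩).trans hδ1)) t ⟨ht.1, le_rfl⟩
  have h2 : M * (t - s) ≤ M * (δ / (2 * (M + 1))) := by
    apply mul_le_mul_of_nonneg_left _ hM1
    linarith [ht.2]
  have h3 : M * (δ / (2 * (M + 1))) + δ / (2 * (M + 1)) = δ / 2 := by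
    field_simp
  calc ‖x t - x₀‖ = ‖(x t - x s) + (x s - x₀)‖ := by congr 1; abel
    _ ≤ ‖x t - x s‖ + ‖x s - x₀‖ := norm_add_le _ _
    _ ≤ M * (δ / (2 * (M + 1))) + δ / (2 * (M + 1)) := by linarith
    _ = δ / 2 := h3
    _ < δ := by linarith

/-- Over bounded time, the solutions starting in a ball are bounded. -/
lemma reach [FiniteDimensional ℝ E] {f : ℝ → E → E} (hf : Reg0 f)
    (hgl : ∀ t₀, 0 ≤ t₀ → ∀ x₀, ∃ x : ℝ → E, x t₀ = x₀ ∧ IsSolution f t₀ x) (R a : ℝ) :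
    ∃ ρ : ℝ, 0 ≤ ρ ∧ ∀ s, 0 ≤ s → ∀ x, IsSolution f s x → ‖x s‖ ≤ R → ∀ t ∈ Icc s a, ‖x t‖ ≤ ρ := by
  have : ProperSpace E := FiniteDimensional.proper ℝ E
  have hK : IsCompact (Icc 0 a ×ˢ Metric.closedBall (0 : E) R) :=
    isCompact_Icc.prod (isCompact_closedBall _ _)
  have key : ∃ ρ : ℝ, ∀ q ∈ Icc 0 a ×ˢ Metric.closedBall (0 : E) R, ∀ x, IsSolution f q.1 x →
      x q.1 = q.2 → ∀ t ∈ Icc q.1 a, ‖x t‖ ≤ ρ := by
    refine hK.induction_on (p := fun S => ∃ ρ : ℝ, ∀ q ∈ S ∩ (Icc 0 a ×ˢ Metric.closedBall (0 : E) R),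
      ∀ x, IsSolution f q.1 x → x q.1 = q.2 → ∀ t ∈ Icc q.1 a, ‖x t‖ ≤ ρ) ⟨0, by simp⟩ ?_ ?_ ?_ |>.imp
      fun ρ h q hq => h q ⟨hq, hq⟩
    · rintro S S' hS ⟨ρ, hρ⟩
      exact ⟨ρ, fun q hq => hρ q ⟨hS hq.1, hq.2⟩⟩
    · rintro S S' ⟨ρ, hρ⟩ ⟨ρ', hρ'⟩
      refine ⟨max ρ ρ', ?_⟩
      rintro q ⟨hq | hq, hq2⟩ x hx hxq t ht
      · exact (hρ q ⟨hq, hq2⟩ x hx hxq t ht).trans (le_max_left _ _)
      · exact (hρ' q ⟨hq, hq2⟩ x hx hxq t ht).trans (le_max_right _ _)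
    · rintro ⟨s₀, x₀⟩ ⟨hs₀, hx₀⟩
      have h0 : 0 ≤ s₀ := hs₀.1
      obtain ⟨z, hz0, hz⟩ := hgl s₀ h0 x₀
      obtain ⟨δ, hδ, hδb⟩ := near_fwd hf (a := a) h0 hz
      obtain ⟨η, hη, hηb⟩ := near_bwd hf h0 x₀ (δ := min δ 1) (lt_min hδ one_pos) (min_le_right _ _)
      -- a bound for `z`
      obtain ⟨Z0, hZ0⟩ := ((isCompact_Icc (a := s₀) (b := a)).image_of_continuousOn
        (hz.continuousOn.mono fun u hu => hu.1).norm).bddAbove
      have hZb : ∀ t ∈ Icc s₀ a, ‖z t‖ ≤ Z0 := fun t ht => hZ0 ⟨t, ht, rfl⟩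
      -- neighbourhood for starts after `s₀`
      have hcz : ContinuousWithinAt z (Ici s₀) s₀ := hz.continuousOn s₀ self_mem_Ici
      rw [Metric.continuousWithinAt_iff] at hcz
      obtain ⟨η2, hη2, hη2b⟩ := hcz (δ / 2) (by positivity)
      set r : ℝ := min (min η η2) (δ / 2) with hr
      have hr0 : 0 < r := by positivity
      refine ⟨Metric.ball (s₀, x₀) r, mem_nhdsWithin_of_mem_nhds (Metric.ball_mem_nhds _ hr0),
        max (Z0 + 1) (‖x₀‖ + 1), ?_⟩
      rintro ⟨s, ξ⟩ ⟨hq, hq2⟩ x hx hxq t ht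
      simp only at hx hxq ht
      rw [Metric.mem_ball, Prod.dist_eq, max_lt_iff] at hq
      simp only at hq
      have hs0 : 0 ≤ s := hq2.1.1
      have hq1 : |s - s₀| < r := by rw [← Real.dist_eq]; exact hq.1
      have hq3 : ‖ξ - x₀‖ < r := by rw [← dist_eq_norm]; exact hq.2
      have hrη : r ≤ η := (min_le_left _ _).trans (min_le_left _ _)
      have hrη2 : r ≤ η2 := (min_le_left _ _).trans (min_le_right _ _)
      have hrδ : r ≤ δ / 2 := min_le_right _ _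
      rcases le_total s₀ s with hss | hss
      · have h1 : ‖z s - x₀‖ < δ / 2 := by
          rw [← dist_eq_norm, ← hz0]
          exact hη2b hss (by rw [Real.dist_eq]; exact hq1.trans_le hrη2)
        have h2 : ‖x s - z s‖ ≤ δ := by
          calc ‖x s - z s‖ = ‖(ξ - x₀) - (z s - x₀)‖ := by rw [hxq]; congr 1; abel
            _ ≤ ‖ξ - x₀‖ + ‖z s - x₀‖ := norm_sub_le _ _
            _ ≤ δ := by linarith
        have h3 := hδb s hss x hx h2 t ht
        have h4 := hZb t ⟨hss.trans ht.1, ht.2⟩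
        refine le_trans ?_ (le_max_left _ _)
        calc ‖x t‖ = ‖(x t - z t) + z t‖ := by congr 1; abel
          _ ≤ ‖x t - z t‖ + ‖z t‖ := norm_add_le _ _
          _ ≤ Z0 + 1 := by linarith
      · have habs : s₀ - s ≤ η := by
          have := neg_abs_le (s - s₀)
          linarith
        have h1 := hηb s hs0 hss habs x hx (by rw [hxq]; linarith)
        rcases le_total t s₀ with hts | hts
        · have h2 := h1 t ⟨ht.1, hts⟩
          have h3 : min δ 1 ≤ 1 := min_le_right _ _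
          refine le_trans ?_ (le_max_right _ _)
          calc ‖x t‖ = ‖(x t - x₀) + x₀‖ := by congr 1; abel
            _ ≤ ‖x t - x₀‖ + ‖x₀‖ := norm_add_le _ _
            _ ≤ ‖x₀‖ + 1 := by linarith
        · have h2 := h1 s₀ ⟨hss, le_rfl⟩
          have hx2 : IsSolution f s₀ x := fun u hu =>
            (hx u (hss.trans hu)).mono fun v hv => hss.trans hv
          have h3 := hδb s₀ le_rfl x hx2 (by
            rw [hz0]; exact (h2.le.trans (min_le_left _ _))) t ⟨hts, ht.2⟩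
          have h4 := hZb t ⟨hts, ht.2⟩
          refine le_trans ?_ (le_max_left _ _)
          calc ‖x t‖ = ‖(x t - z t) + z t‖ := by congr 1; abel
            _ ≤ ‖x t - z t‖ + ‖z t‖ := norm_add_le _ _
            _ ≤ Z0 + 1 := by linarith
  obtain ⟨ρ, hρ⟩ := key
  refine ⟨max ρ 0, le_max_right _ _, fun s hs x hx hxR t ht => ?_⟩
  exact (hρ (s, x s) ⟨⟨hs, ht.1.trans ht.2⟩, by simpa using hxR⟩ x hx rfl t ht).trans
    (le_max_left _ _)

end Pool.Agent.Y750.MY
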