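import Pool.Agent.Y750.MY.B

/-!
# Shadowing of the difference of two solutions by a linear solution

Helper file for `MP_1775bc_an`.
-/

open Set Filter Topology MeasureTheory

namespace Pool.Agent.Y750.MY

open Pool.Agent.TH339.MY

variable {E : Type*} [NormedAddCommGroup E] [NormedSpace ℝ E]

/-- **Shadowing.** Along a solution `x` one can choose a piecewise continuous `ω(t) ∈ [0,1] x(t)`
such that a solution of `y' = Jf(t,ω(t)) y` approximates `x` within `η(t)`, where `η` decays as fast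
as we please. -/
lemma shadow [CompleteSpace E] {f : ℝ → E → E} (hf : Reg f)
    (hP : ∀ ω : ℝ → E, PiecewiseContinuous ω →
      PiecewiseContinuous (fun t => fderiv ℝ (f t) (ω t)))
    {t₀ : ℝ} (h0 : 0 ≤ t₀) {x : ℝ → E} (hx : IsSolution f t₀ x) {ε : ℝ} (hε : 0 < ε)
    {η : ℝ → ℝ} (hη : ∀ t, 0 < η t) (hηa : Antitone η) :
    ∃ ω : ℝ → E, PiecewiseContinuous ω ∧ (∀ t, t₀ ≤ t → ∃ s ∈ Icc (0:ℝ) 1, ω t = s • x t) ∧
      ∀ T, IsEvolution (fun t => fderiv ℝ (f t) (ω t)) T →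
        ∃ w, ‖w - x t₀‖ ≤ ε ∧ ∀ t, t₀ ≤ t → ‖x t - T t t₀ w‖ ≤ η t := by
  have hxc := hx.continuousOn
  set xt : ℝ → E := fun t => x (max t₀ t) with hxt
  have hxtc : Continuous xt :=
    hxc.comp_continuous (by fun_prop) fun t => mem_Ici.mpr (le_max_left _ _)
  have hxte : ∀ t, t₀ ≤ t → xt t = x t := by
    intro t ht; simp only [hxt, max_eq_right ht]
  set G : ℝ → ℝ → E := fun u s => (fderiv ℝ (f (max 0 u)) (s • xt u)) (xt u) with hG
  have hGc : Continuous (Function.uncurry G) := by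
    have h1 : Continuous fun p : ℝ × ℝ => fderiv ℝ (f (max 0 p.1)) (p.2 • xt p.1) := by
      have h2 : Continuous fun p : ℝ × ℝ => (max 0 p.1, p.2 • xt p.1) := by
        apply Continuous.prodMk (by fun_prop)
        exact continuous_snd.smul (hxtc.comp continuous_fst)
      exact hf.jcont.comp_continuous h2 fun p => ⟨mem_Ici.mpr (le_max_left _ _), mem_univ _⟩
    exact h1.clm_apply (hxtc.comp continuous_fst)
  choose b hb0 hb using fun k : ℕ => exists_bound hf h0 hxc (t₀ + k + 1)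
  set S : ℕ → ℝ := fun k => ∑ i ∈ Finset.range (k + 1), b i with hS
  have hSm : Monotone S := by
    apply monotone_nat_of_le_succ
    intro k
    simp only [hS]
    rw [Finset.sum_range_succ _ (k + 1)]
    linarith [hb0 (k + 1)]
  have hSb : ∀ k, b k ≤ S k := fun k => by
    simp only [hS]
    rw [Finset.sum_range_succ]
    have := Finset.sum_nonneg (s := Finset.range k) fun i _ => hb0 i
    linarith
  have hS0 : ∀ k, 0 ≤ S k := fun k => (hb0 k).trans (hSb k)
  set cc : ℕ → ℝ := fun k => η (t₀ + k + 1) * Real.exp (-(S k * (k + 1))) with hcc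
  have hcc0 : ∀ k, 0 < cc k := fun k => mul_pos (hη _) (Real.exp_pos _)
  have hcca : Antitone cc := by
    intro i j hij
    have hij' : (i : ℝ) ≤ j := by exact_mod_cast hij
    simp only [hcc]
    apply mul_le_mul (hηa (by linarith)) _ (Real.exp_pos _).le (hη _).le
    apply Real.exp_le_exp.mpr
    have h1 : S i * (i + 1) ≤ S j * (j + 1) :=
      mul_le_mul (hSm hij) (by linarith) (by positivity) (hS0 j)
    linarith
  set inc : ℕ → ℝ := fun k => min (ε / 2 ^ (k + 1)) (cc k / 2 / 2 ^ (k + 1)) with hinc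
  have hinc0 : ∀ k, 0 < inc k := fun k => by
    have := hcc0 k
    simp only [hinc]
    positivity
  set e : ℕ → ℝ := fun k => inc k / (Real.exp (b k) * Real.exp (b k * (k + 1))) with he
  have he0 : ∀ k, 0 < e k := by
    intro k
    have := hinc0 k
    simp only [he]; positivity
  choose N hN0 hN using fun k : ℕ => sawtooth_average hGc (t₀ + k) (he0 k)
  set g : ℕ → ℝ → E := fun k t => Int.fract (N k * (t - (t₀ + k))) • xt t with hg
  set ω : ℝ → E := fun t => g ⌊t - t₀⌋₊ t with hω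
  have hidx : ∀ k : ℕ, ∀ t ∈ Ico (t₀ + k) (t₀ + k + 1), ω t = g k t := by
    intro k t ht
    have : ⌊t - t₀⌋₊ = k := by
      rw [Nat.floor_eq_iff (by
        have := ht.1
        have h2 : (0:ℝ) ≤ k := Nat.cast_nonneg k
        linarith)]
      exact ⟨by linarith [ht.1], by linarith [ht.2]⟩
    simp only [hω, this]
  have hωp : PiecewiseContinuous ω := by
    apply pwc_concat (τ := fun k : ℕ => t₀ + k) (g := g)
    · intro i j hij
      simp only [add_lt_add_iff_left, Nat.cast_lt]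
      exact hij
    · exact tendsto_atTop_add_const_left _ _ tendsto_natCast_atTop_atTop
    · intro k
      exact pwc_sawtooth (by exact_mod_cast hN0 k) _ hxtc
    · intro t ht
      have : ⌊t - t₀⌋₊ = 0 := by
        rw [Nat.floor_eq_zero]
        simp only [Nat.cast_zero, add_zero] at ht
        linarith
      simp only [hω, this]
    · intro k t ht
      push_cast at ht
      exact hidx k t (by rwa [add_assoc])
  have hωs : ∀ t, t₀ ≤ t → ∃ s ∈ Icc (0:ℝ) 1, ω t = s • x t := by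
    intro t ht
    refine ⟨Int.fract (N ⌊t - t₀⌋₊ * (t - (t₀ + ⌊t - t₀⌋₊))), ⟨Int.fract_nonneg _,
      (Int.fract_lt_one _).le⟩, ?_⟩
    simp only [hω, hg, hxte t ht]
  refine ⟨ω, hωp, hωs, ?_⟩
  intro T hT
  have hA := hP ω hωp
  have hAb : ∀ k : ℕ, ∀ u ∈ Ico t₀ (t₀ + k + 1), ‖fderiv ℝ (f u) (ω u)‖ ≤ b k := by
    intro k u hu
    obtain ⟨s, hs, hs'⟩ := hωs u hu.1
    rw [hs']
    exact hb k u ⟨hu.1, hu.2.le⟩ s hs
  set w : ℝ → E := fun t => T t₀ t (x t) with hw
  have hw1 : ∀ t, t₀ ≤ t → T t t₀ (w t) = x t := by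
    intro t ht
    have h0t := h0.trans ht
    simp only [hw]
    rw [hT.cocycle hA h0 h0t h0t, hT.self h0t]
  have hk0 : ∀ k : ℕ, t₀ ≤ t₀ + k := fun k => by simp
  have hstep : ∀ k : ℕ, ∀ t ∈ Icc (t₀ + k) (t₀ + k + 1), ‖w t - w (t₀ + k)‖ ≤ inc k := by
    intro k t ht
    have h0k : 0 ≤ t₀ + k := h0.trans (hk0 k)
    have h0t : 0 ≤ t := h0k.trans ht.1
    have ht0 : t₀ ≤ t := (hk0 k).trans ht.1
    have hy := hT.iSol hA h0k (x (t₀ + k))
    have hcmp := hy.compare hA h0k (by linarith : t₀ + k ≤ t₀ + k + 1) (β := b k) (ρ := e k)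
      (fun u hu => hAb k u ⟨(hk0 k).trans hu.1, hu.2⟩) (hb0 k) (x := x)
      (hxc.mono fun u hu => (hk0 k).trans hu.1) ?_ ?_ t ht
    · have h3 : w t - w (t₀ + k) = T t₀ t (x t - T t (t₀ + k) (x (t₀ + k))) := by
        rw [map_sub, hT.cocycle hA h0t h0k h0]
      rw [h3]
      have hz := (hT.iSol hA h0t (x t - T t (t₀ + k) (x (t₀ + k)))).bwd_bound hA h0 ht0
        (β := b k) (fun u hu => hAb k u ⟨hu.1, hu.2.trans_le ht.2⟩) (hb0 k)
      rw [hT.self h0t] at hz
      refine hz.trans ?_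
      calc Real.exp (b k * (t - t₀)) * ‖x t - T t (t₀ + k) (x (t₀ + k))‖
          ≤ Real.exp (b k * (k + 1)) * (e k * Real.exp (b k * 1)) := by
            gcongr
            · exact hb0 k
            · linarith [ht.2]
            · refine hcmp.trans ?_
              have := he0 k
              gcongr
              · exact hb0 k
              · linarith [ht.2]
        _ = inc k := by
            simp only [he, mul_one]
            have h5 := Real.exp_pos (b k)
            have h6 := Real.exp_pos (b k * (k + 1))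
            field_simp
    · intro v hv
      have h4 := hx.integral hf h0 (hk0 k) hv.1
      have h5 : ∫ u in (t₀ + k)..v, (fderiv ℝ (f u) (ω u)) (x u)
          = ∫ u in (t₀ + k)..v, G u (Int.fract (N k * (u - (t₀ + k)))) := by
        apply intervalIntegral.integral_congr_ae
        have : ∀ᵐ u : ℝ, u ≠ t₀ + k + 1 := by simp [ae_iff]
        filter_upwards [this] with u hub hu
        rw [uIoc_of_le hv.1] at hu
        have hu1 : u ∈ Ico (t₀ + k) (t₀ + k + 1) :=
          ⟨hu.1.le, lt_of_le_of_ne (hu.2.trans hv.2) hub⟩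
        have hu0 : t₀ ≤ u := (hk0 k).trans hu1.1
        rw [hidx k u hu1]
        simp only [hG, hg, hxte u hu0, max_eq_right (h0.trans hu0)]
      have h6 : ∫ u in (t₀ + k)..v, f u (x u)
          = ∫ u in (t₀ + k)..v, ∫ s in (0:ℝ)..1, G u s := by
        apply intervalIntegral.integral_congr
        intro u hu
        rw [uIcc_of_le hv.1] at hu
        have hu0 : t₀ ≤ u := (hk0 k).trans hu.1
        simp only
        rw [hf.ray (h0.trans hu0) (x u)]
        simp only [hG, hxte u hu0, max_eq_right (h0.trans hu0)]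
      have h7 : x v - T (t₀ + k) (t₀ + k) (x (t₀ + k)) - ∫ u in (t₀ + k)..v,
          (fderiv ℝ (f u) (ω u)) (x u) = - ∫ u in (t₀ + k)..v,
          (G u (Int.fract (N k * (u - (t₀ + k)))) - ∫ s in (0:ℝ)..1, G u s) := by
        rw [hT.self h0k, h4, h5, h6, intervalIntegral.integral_sub]
        · abel
        · have hp : PiecewiseContinuous (fun u => (fderiv ℝ (f u) (ω u)) (xt u)) :=
            hA.apply hxtc.continuousOn
          have hi := hp.intervalIntegrable h0k (h0k.trans hv.1)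
          refine hi.congr_ae ?_
          have : ∀ᵐ u : ℝ, u ≠ t₀ + k + 1 := by simp [ae_iff]
          rw [EventuallyEq, ae_restrict_iff' measurableSet_uIoc]
          filter_upwards [this] with u hub hu
          rw [uIoc_of_le hv.1] at hu
          have hu1 : u ∈ Ico (t₀ + k) (t₀ + k + 1) :=
            ⟨hu.1.le, lt_of_le_of_ne (hu.2.trans hv.2) hub⟩
          have hu0 : t₀ ≤ u := (hk0 k).trans hu1.1
          rw [hidx k u hu1]
          simp only [hG, hg, max_eq_right (h0.trans hu0)]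
        · exact (intervalIntegral.continuous_parametric_intervalIntegral_of_continuous'
            hGc _ _).intervalIntegrable _ _
      rw [h7, norm_neg]
      exact hN k v hv
    · have hp : PiecewiseContinuous (fun u => (fderiv ℝ (f u) (ω u)) (xt u)) :=
        hA.apply hxtc.continuousOn
      have hi := hp.intervalIntegrable h0k (h0k.trans (by linarith : t₀ + k ≤ t₀ + k + 1))
      refine hi.congr ?_
      intro u hu
      rw [uIoc_of_le (by linarith : t₀ + k ≤ t₀ + k + 1)] at hu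
      simp only
      rw [hxte u ((hk0 k).trans hu.1.le)]
  -- the limit
  set W : ℕ → E := fun k => w (t₀ + k) with hW
  have hWd : ∀ k, ‖W k - W (k + 1)‖ ≤ inc k := by
    intro k
    rw [norm_sub_rev]
    have := hstep k (t₀ + (k + 1 : ℕ)) (by push_cast; constructor <;> linarith)
    exact this
  have hW1 : ∀ k, dist (W k) (W (k + 1)) ≤ ε / 2 / 2 ^ k := by
    intro k
    rw [dist_eq_norm]
    refine (hWd k).trans ((min_le_left _ _).trans (le_of_eq ?_))
    rw [pow_succ]; field_simp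
  obtain ⟨wi, hwi⟩ := cauchySeq_tendsto_of_complete (cauchySeq_of_le_geometric_two hW1)
  have hwi0 : ‖wi - x t₀‖ ≤ ε := by
    have h1 := dist_le_of_le_geometric_two_of_tendsto₀ hW1 hwi
    have h2 : W 0 = x t₀ := by
      simp only [hW, hw, Nat.cast_zero, add_zero]
      exact hT.self h0 _
    rw [h2, dist_comm, dist_eq_norm] at h1
    exact h1
  have htail : ∀ k, ‖W k - wi‖ ≤ cc k / 2 := by
    intro k
    have h1 : ∀ n, dist (W (k + n)) (W (k + (n + 1))) ≤ (cc k / 2) / 2 / 2 ^ n := by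
      intro n
      rw [dist_eq_norm]
      refine (hWd (k + n)).trans ((min_le_right _ _).trans ?_)
      have h2 := hcca (Nat.le_add_right k n)
      have h3 := hcc0 (k + n)
      have h3' := hcc0 k
      have h4 : (2:ℝ) ^ (n + 1) ≤ 2 ^ (k + n + 1) := pow_le_pow_right₀ (by norm_num) (by omega)
      calc cc (k + n) / 2 / 2 ^ (k + n + 1) ≤ cc k / 2 / 2 ^ (n + 1) := by gcongr
        _ = (cc k / 2) / 2 / 2 ^ n := by rw [pow_succ]; field_simp
    have h2 : Tendsto (fun n => W (k + n)) atTop (𝓝 wi) := by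
      have := (tendsto_add_atTop_iff_nat (f := W) k).mpr hwi
      refine this.congr fun n => ?_
      rw [add_comm]
    have h3 := dist_le_of_le_geometric_two_of_tendsto₀ h1 h2
    rw [dist_eq_norm] at h3
    simpa using h3
  refine ⟨wi, hwi0, fun t ht => ?_⟩
  set k := ⌊t - t₀⌋₊ with hk
  have hnn : 0 ≤ t - t₀ := by linarith
  have hmem : t ∈ Icc (t₀ + k) (t₀ + k + 1) := by
    have h1 := Nat.floor_le hnn
    have h2 := Nat.lt_floor_add_one (t - t₀)
    rw [← hk] at h1 h2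
    constructor <;> linarith
  have h1 : x t - T t t₀ wi = T t t₀ (w t - wi) := by rw [map_sub, hw1 t ht]
  have h2 : ‖w t - wi‖ ≤ cc k := by
    have h3 := hstep k t hmem
    have h4 := htail k
    have h5 : inc k ≤ cc k / 2 := by
      refine (min_le_right _ _).trans ?_
      have := hcc0 k
      apply div_le_self (by positivity)
      exact one_le_pow₀ (by norm_num)
    calc ‖w t - wi‖ = ‖(w t - w (t₀ + k)) + (W k - wi)‖ := by congr 1; simp only [hW]; abel
      _ ≤ ‖w t - w (t₀ + k)‖ + ‖W k - wi‖ := norm_add_le _ _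
      _ ≤ cc k := by linarith
  have h3 := (hT.iSol hA h0 (w t - wi)).fwd_bound hA h0 ht (β := b k)
    (fun u hu => hAb k u ⟨hu.1, hu.2.trans_le hmem.2⟩) (hb0 k)
  rw [hT.self h0] at h3
  rw [h1]
  refine h3.trans ?_
  calc Real.exp (b k * (t - t₀)) * ‖w t - wi‖ ≤ Real.exp (S k * (k + 1)) * cc k := by
        gcongr
        · exact hS0 k
        · exact hSb k
        · linarith [hmem.2]
    _ = η (t₀ + k + 1) * (Real.exp (S k * (k + 1)) * Real.exp (-(S k * (k + 1)))) := by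
        simp only [hcc]; ring
    _ = η (t₀ + k + 1) := by rw [← Real.exp_add]; simp
    _ ≤ η t := hηa hmem.2

/-- Shadowing for the difference of two solutions. -/
lemma shadow_pair [CompleteSpace E] {f : ℝ → E → E} (hf : Reg0 f) {s : ℝ} (hs : 0 ≤ s)
    {x y : ℝ → E} (hx : IsSolution f s x) (hy : IsSolution f s y) {ε : ℝ} (hε : 0 < ε)
    {η : ℝ → ℝ} (hη : ∀ t, 0 < η t) (hηa : Antitone η) :
    ∃ ω : ℝ → E, PiecewiseContinuous ω ∧
      (∀ t, s ≤ t → ∃ r ∈ Icc (0:ℝ) 1, ω t = r • (x t - y t) + y t) ∧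
      ∀ T, IsEvolution (fun t => fderiv ℝ (f t) (ω t)) T →
        ∃ w, ‖w - (x s - y s)‖ ≤ ε ∧ ∀ t, s ≤ t → ‖(x t - y t) - T t s w‖ ≤ η t := by
  set yt : ℝ → E := fun t => y (max s t) with hyt
  have hytc : Continuous yt :=
    hy.continuousOn.comp_continuous (by fun_prop) fun t => mem_Ici.mpr (le_max_left _ _)
  have hyte : ∀ t, s ≤ t → yt t = y t := by
    intro t ht; simp only [hyt, max_eq_right ht]
  have hz : IsSolution (sh f yt) s (fun t => x t - y t) := by
    intro t ht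
    have h1 := (hx t ht).sub (hy t ht)
    have h2 : sh f yt t (x t - y t) = f t (x t) - f t (y t) := by
      simp only [sh, hyte t ht, sub_add_cancel]
    rw [h2]
    exact h1
  obtain ⟨ω, hω, hωs, hωT⟩ := shadow (sh_reg hf hytc) (sh_pwc hf hytc) hs hz hε hη hηa
  refine ⟨fun t => ω t + yt t, pwc_add hω hytc, fun t ht => ?_, fun T hT => ?_⟩
  · obtain ⟨r, hr, hr'⟩ := hωs t ht
    exact ⟨r, hr, by simp only [hr', hyte t ht]⟩
  · apply hωT T _
    have h3 : (fun t => fderiv ℝ (sh f yt t) (ω t)) = fun t => fderiv ℝ (f t) (ω t + yt t) := by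
      funext t
      rw [sh_fderiv]
    rw [h3]
    exact hT

/-- Bound for the Jacobian on balls over bounded time. -/
lemma jac_bound [FiniteDimensional ℝ E] {f : ℝ → E → E} (hf : Reg0 f) (R a : ℝ) :
    ∃ B, 0 ≤ B ∧ ∀ u ∈ Icc 0 a, ∀ ξ : E, ‖ξ‖ ≤ R → ‖fderiv ℝ (f u) ξ‖ ≤ B := by
  have : ProperSpace E := FiniteDimensional.proper ℝ E
  have hc : ContinuousOn (fun p : ℝ × E => fderiv ℝ (f p.1) p.2)
      (Icc 0 a ×ˢ Metric.closedBall (0 : E) R) :=
    hf.jcont.mono fun p hp => ⟨hp.1.1, mem_univ _⟩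
  obtain ⟨B, hB⟩ := ((isCompact_Icc.prod (isCompact_closedBall (0 : E) R)).image_of_continuousOn
    hc.norm).bddAbove
  refine ⟨max B 0, le_max_right _ _, fun u hu ξ hξ => ?_⟩
  have hmem : (u, ξ) ∈ Icc 0 a ×ˢ Metric.closedBall (0 : E) R := ⟨hu, by simpa using hξ⟩
  exact (hB ⟨(u, ξ), hmem, rfl⟩).trans (le_max_left _ _)

/-- **Uniform exponential contraction along bounded curves.** -/
theorem uniform_linear [FiniteDimensional ℝ E] {f : ℝ → E → E} (hf : Reg0 f)
    (hE : ∀ ω : ℝ → E, PiecewiseContinuous ω →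
      ∃ T, IsEvolution (fun t => fderiv ℝ (f t) (ω t)) T)
    (hG : ∀ ω : ℝ → E, PiecewiseContinuous ω → ∀ T,
      IsEvolution (fun t => fderiv ℝ (f t) (ω t)) T →
      ∃ K γ ε : ℝ, 1 ≤ K ∧ 0 ≤ ε ∧ ε < γ ∧
        ∀ t s, 0 ≤ s → s ≤ t → ‖T t s‖ ≤ K * Real.exp (-γ * (t - s) + ε * s)) (R : ℝ) :
    ∃ K γ ε : ℝ, 1 ≤ K ∧ 0 ≤ ε ∧ ε < γ ∧ ∀ ω : ℝ → E, PiecewiseContinuous ω →
      ∀ T, IsEvolution (fun t => fderiv ℝ (f t) (ω t)) T → ∀ t s, 0 ≤ s → s ≤ t →
      (∀ u ∈ Ico s t, ‖ω u‖ ≤ R) → ‖T t s‖ ≤ K * Real.exp (-γ * (t - s) + ε * s) := by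
  obtain ⟨K, γ, ε, hK, hε, hεγ, h⟩ := glue hf (fun s t ω => ∀ u ∈ Ico s t, ‖ω u‖ ≤ R)
    (fun a => by
      obtain ⟨B, hB0, hB⟩ := jac_bound hf R a
      exact ⟨B, hB0, fun s t ω hs hC u hu hua => hB u ⟨hs.trans hu.1, hua⟩ _ (hC u hu)⟩) hE hG
  refine ⟨K, γ, ε, hK, hε, hεγ, fun ω hω T hT t s hs hst hb => ?_⟩
  exact ContinuousLinearMap.opNorm_le_bound _ (by positivity) fun v =>
    h s t ω hs hst hω hb T hT v

/-- **Incremental exponential stability**, uniform for initial values in a ball. -/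
theorem incremental [FiniteDimensional ℝ E] {f : ℝ → E → E} (hf : Reg0 f)
    (hgl : ∀ t₀, 0 ≤ t₀ → ∀ x₀, ∃ x : ℝ → E, x t₀ = x₀ ∧ IsSolution f t₀ x)
    (hE : ∀ ω : ℝ → E, PiecewiseContinuous ω →
      ∃ T, IsEvolution (fun t => fderiv ℝ (f t) (ω t)) T)
    (hG : ∀ ω : ℝ → E, PiecewiseContinuous ω → ∀ T,
      IsEvolution (fun t => fderiv ℝ (f t) (ω t)) T →
      ∃ K γ ε : ℝ, 1 ≤ K ∧ 0 ≤ ε ∧ ε < γ ∧
        ∀ t s, 0 ≤ s → s ≤ t → ‖T t s‖ ≤ K * Real.exp (-γ * (t - s) + ε * s)) (R : ℝ) :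
    ∃ K γ ε : ℝ, 1 ≤ K ∧ 0 ≤ ε ∧ ε < γ ∧ ∀ s, 0 ≤ s → ∀ x y : ℝ → E, IsSolution f s x →
      IsSolution f s y → ‖x s‖ ≤ R → ‖y s‖ ≤ R → ∀ t, s ≤ t →
      ‖x t - y t‖ ≤ K * Real.exp (-γ * (t - s) + ε * s) * ‖x s - y s‖ := by
  have hcs : CompleteSpace E := FiniteDimensional.complete ℝ E
  obtain ⟨K, γ, ε, hK, hε, hεγ, h⟩ := glue hf
    (fun s t ω => ∃ x y : ℝ → E, IsSolution f s x ∧ IsSolution f s y ∧ ‖x s‖ ≤ R ∧ ‖y s‖ ≤ R ∧
      ∀ u, s ≤ u → ∃ r ∈ Icc (0:ℝ) 1, ω u = r • (x u - y u) + y u)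
    (fun a => by
      obtain ⟨ρ, hρ0, hρ⟩ := reach hf hgl R a
      obtain ⟨B, hB0, hB⟩ := jac_bound hf ρ a
      refine ⟨B, hB0, ?_⟩
      rintro s t ω hs ⟨x, y, hx, hy, hxR, hyR, hC⟩ u hu hua
      obtain ⟨r, hr, hr'⟩ := hC u hu.1
      apply hB u ⟨hs.trans hu.1, hua⟩
      have h1 := hρ s hs x hx hxR u ⟨hu.1, hua⟩
      have h2 := hρ s hs y hy hyR u ⟨hu.1, hua⟩
      have h3 : ω u = r • x u + (1 - r) • y u := by
        rw [hr', smul_sub, sub_smul, one_smul]; abel
      rw [h3]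
      calc ‖r • x u + (1 - r) • y u‖ ≤ ‖r • x u‖ + ‖(1 - r) • y u‖ := norm_add_le _ _
        _ = r * ‖x u‖ + (1 - r) * ‖y u‖ := by
            rw [norm_smul, norm_smul, Real.norm_of_nonneg hr.1,
              Real.norm_of_nonneg (by linarith [hr.2])]
        _ ≤ r * ρ + (1 - r) * ρ := by
            have := hr.1
            have := hr.2
            have h5 : 0 ≤ 1 - r := by linarith
            gcongr
        _ = ρ := by ring) hE hG
  refine ⟨K, γ, ε, hK, hε, hεγ, fun s hs x y hx hy hxR hyR t hst => ?_⟩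
  have key : ∀ δ : ℝ, 0 < δ → ‖x t - y t‖ ≤
      K * Real.exp (-γ * (t - s) + ε * s) * (‖x s - y s‖ + δ) := by
    intro δ hδ
    obtain ⟨ω, hω, hωs, hωT⟩ := relax_pair hf hs hx hy hδ
    obtain ⟨T, hT⟩ := hE ω hω
    obtain ⟨w, hw, hw'⟩ := hωT T hT t hst
    rw [← hw']
    refine (h s t ω hs hst hω ⟨x, y, hx, hy, hxR, hyR, hωs⟩ T hT w).trans ?_
    gcongr
    calc ‖w‖ = ‖(w - (x s - y s)) + (x s - y s)‖ := by congr 1; abel
      _ ≤ ‖w - (x s - y s)‖ + ‖x s - y s‖ := norm_add_le _ _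
      _ ≤ ‖x s - y s‖ + δ := by linarith
  set C := K * Real.exp (-γ * (t - s) + ε * s) with hC
  have hC0 : 0 < C := by rw [hC]; positivity
  apply le_of_forall_pos_le_add
  intro δ hδ
  have := key (δ / C) (by positivity)
  rw [mul_add, mul_div_cancel₀ _ hC0.ne'] at this
  exact this

end Pool.Agent.Y750.MY
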