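import Pool.Agent.Y750.MY.C

/-!
# Exponential convergence or divergence of solutions

Helper file for `MP_1775bc_an`.
-/

open Set Filter Topology MeasureTheory

namespace Pool.Agent.Y750.MY

open Pool.Agent.TH339.MY

variable {E : Type*} [NormedAddCommGroup E] [NormedSpace ℝ E]

/-- The rate of approximation. -/
noncomputable def rate (t : ℝ) : ℝ := Real.exp (-(max t 0) ^ 2)

lemma rate_pos (t : ℝ) : 0 < rate t := Real.exp_pos _

lemma rate_anti : Antitone rate := by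
  intro a b hab
  unfold rate
  apply Real.exp_le_exp.mpr
  have h1 : max a 0 ≤ max b 0 := max_le_max_right 0 hab
  have h2 : 0 ≤ max a 0 := le_max_right _ _
  nlinarith

lemma rate_le_one (t : ℝ) : rate t ≤ 1 := by
  unfold rate
  apply Real.exp_le_one_iff.mpr
  nlinarith [sq_nonneg (max t 0)]

lemma rate_le (γ : ℝ) {t : ℝ} (ht : 0 ≤ t) : rate t ≤ Real.exp (γ ^ 2 / 4) * Real.exp (-γ * t) := by
  unfold rate
  rw [max_eq_left ht, ← Real.exp_add]
  apply Real.exp_le_exp.mpr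
  nlinarith [sq_nonneg (t - γ / 2)]

/-- **Alternative** for two solutions if all linearizations have a nonuniform exponential
dichotomy. -/
theorem alternative0 [FiniteDimensional ℝ E] {f : ℝ → E → E} (hf : Reg0 f)
    (hG : ∀ ω : ℝ → E, PiecewiseContinuous ω → ∃ (T : ℝ → ℝ → E →L[ℝ] E) (P : ℝ → E →L[ℝ] E),
      IsEvolution (fun t => fderiv ℝ (f t) (ω t)) T ∧
      (∀ t s, 0 ≤ t → 0 ≤ s → T t s ∘L P s = P t ∘L T t s) ∧
      ∃ K γ ε : ℝ, 1 ≤ K ∧ 0 ≤ ε ∧ ε < γ ∧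
        (∀ t s, 0 ≤ s → s ≤ t → ‖T t s ∘L P s‖ ≤ K * Real.exp (-γ * (t - s) + ε * s)) ∧
        (∀ t s, 0 ≤ t → t ≤ s →
          ‖T t s ∘L (ContinuousLinearMap.id ℝ E - P s)‖ ≤ K * Real.exp (-γ * (s - t) + ε * s)))
    {t₀ : ℝ} (h0 : 0 ≤ t₀) {x y : ℝ → E} (hx : IsSolution f t₀ x) (hy : IsSolution f t₀ y) :
    (∃ C γ : ℝ, 0 < γ ∧ ∀ t, t₀ ≤ t → ‖x t - y t‖ ≤ C * Real.exp (-γ * t)) ∨
    (∃ c γ : ℝ, 0 < c ∧ 0 < γ ∧ ∀ᶠ t in atTop, c * Real.exp (γ * t) ≤ ‖x t - y t‖) := by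
  have hcs : CompleteSpace E := FiniteDimensional.complete ℝ E
  obtain ⟨ω, hω, -, hωT⟩ := shadow_pair hf h0 hx hy one_pos rate_pos rate_anti
  obtain ⟨T, P, hT, hcomm, K, γ, ε, hK, hε, hεγ, h1, h2⟩ := hG ω hω
  have hA := hf.pwc ω hω
  obtain ⟨w, -, hw⟩ := hωT T hT
  have hγ : 0 < γ := lt_of_le_of_lt hε hεγ
  have hK0 : 0 < K := by linarith
  by_cases hv : w - P t₀ w = 0
  · left
    refine ⟨K * Real.exp (γ * t₀ + ε * t₀) * ‖w‖ + Real.exp (γ ^ 2 / 4), γ, hγ, fun t ht => ?_⟩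
    have e1 : T t t₀ w = (T t t₀ ∘L P t₀) w := by
      rw [ContinuousLinearMap.comp_apply, ← sub_eq_zero.mp hv]
    have e2 : ‖T t t₀ w‖ ≤ K * Real.exp (-γ * (t - t₀) + ε * t₀) * ‖w‖ := by
      rw [e1]
      exact ((T t t₀ ∘L P t₀).le_opNorm w).trans (by gcongr; exact h1 t t₀ h0 ht)
    have e3 := hw t ht
    have e4 := rate_le γ (h0.trans ht)
    have e5 : Real.exp (-γ * (t - t₀) + ε * t₀) = Real.exp (γ * t₀ + ε * t₀) * Real.exp (-γ * t) := by
      rw [← Real.exp_add]; congr 1; ring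
    calc ‖x t - y t‖ = ‖((x t - y t) - T t t₀ w) + T t t₀ w‖ := by congr 1; abel
      _ ≤ ‖(x t - y t) - T t t₀ w‖ + ‖T t t₀ w‖ := norm_add_le _ _
      _ ≤ Real.exp (γ ^ 2 / 4) * Real.exp (-γ * t) +
          K * (Real.exp (γ * t₀ + ε * t₀) * Real.exp (-γ * t)) * ‖w‖ := by
          rw [← e5]; linarith
      _ = _ := by ring
  · right
    set v := w - P t₀ w with hvd
    have hv0 : 0 < ‖v‖ := norm_pos_iff.mpr hv
    set c1 : ℝ := ‖v‖ / K * Real.exp (-(γ * t₀)) with hc1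
    have hc10 : 0 < c1 := by positivity
    refine ⟨c1 / 2, γ - ε, by positivity, by linarith, ?_⟩
    have hlim : Tendsto (fun t : ℝ => c1 / 2 * Real.exp ((γ - ε) * t)) atTop atTop := by
      apply Tendsto.const_mul_atTop (by positivity)
      exact Real.tendsto_exp_atTop.comp (tendsto_id.const_mul_atTop (by linarith))
    filter_upwards [eventually_ge_atTop t₀, hlim.eventually_ge_atTop 1] with t ht hbig
    have h0t : 0 ≤ t := h0.trans ht
    have e1 : (T t₀ t ∘L (ContinuousLinearMap.id ℝ E - P t)) (T t t₀ w) = v := by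
      have hc : P t (T t t₀ w) = T t t₀ (P t₀ w) := by
        have := congrArg (fun S : E →L[ℝ] E => S w) (hcomm t t₀ h0t h0)
        simpa using this.symm
      rw [ContinuousLinearMap.comp_apply, _root_.sub_apply,
        ContinuousLinearMap.id_apply, hc, ← map_sub, hT.cocycle hA h0t h0 h0, hT.self h0]
    have e2 : ‖v‖ ≤ K * Real.exp (-γ * (t - t₀) + ε * t) * ‖T t t₀ w‖ := by
      rw [← e1]
      exact (ContinuousLinearMap.le_opNorm _ _).trans (by gcongr; exact h2 t₀ t h0 ht)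
    have e3 : c1 * Real.exp ((γ - ε) * t) ≤ ‖T t t₀ w‖ := by
      have e4 : Real.exp (-(γ * t₀)) * Real.exp ((γ - ε) * t) * Real.exp (-γ * (t - t₀) + ε * t) = 1 := by
        rw [← Real.exp_add, ← Real.exp_add, Real.exp_eq_one_iff]; ring
      calc c1 * Real.exp ((γ - ε) * t)
          = (Real.exp (-(γ * t₀)) * Real.exp ((γ - ε) * t)) / K * ‖v‖ := by rw [hc1]; ring
        _ ≤ (Real.exp (-(γ * t₀)) * Real.exp ((γ - ε) * t)) / K *
            (K * Real.exp (-γ * (t - t₀) + ε * t) * ‖T t t₀ w‖) := by gcongr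
        _ = (Real.exp (-(γ * t₀)) * Real.exp ((γ - ε) * t) * Real.exp (-γ * (t - t₀) + ε * t)) *
            ‖T t t₀ w‖ := by field_simp
        _ = ‖T t t₀ w‖ := by rw [e4, one_mul]
    have e5 := hw t ht
    have e6 := rate_le_one t
    have e7 : ‖T t t₀ w‖ ≤ ‖x t - y t‖ + ‖(x t - y t) - T t t₀ w‖ := by
      calc ‖T t t₀ w‖ = ‖(x t - y t) - ((x t - y t) - T t t₀ w)‖ := by congr 1; abel
        _ ≤ _ := norm_sub_le _ _
    have e8 : c1 * Real.exp ((γ - ε) * t) = c1 / 2 * Real.exp ((γ - ε) * t) +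
        c1 / 2 * Real.exp ((γ - ε) * t) := by ring
    linarith

/-- The system for `e^{-λ t} x(t)`. -/
noncomputable def wgt (f : ℝ → E → E) (l : ℝ) : ℝ → E → E :=
  fun t z => Real.exp (-(l * t)) • f t (Real.exp (l * t) • z) - l • z

lemma wgt_fderiv {f : ℝ → E → E} (hf : Reg0 f) (l : ℝ) {t : ℝ} (ht : 0 ≤ t) (z : E) :
    fderiv ℝ (wgt f l t) z = fderiv ℝ (f t) (Real.exp (l * t) • z) -
      l • ContinuousLinearMap.id ℝ E := by
  have h1 : HasFDerivAt (fun z : E => Real.exp (l * t) • z)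
      (Real.exp (l * t) • ContinuousLinearMap.id ℝ E) z := (hasFDerivAt_id z).const_smul _
  have h2 : HasFDerivAt (f t) (fderiv ℝ (f t) (Real.exp (l * t) • z)) (Real.exp (l * t) • z) :=
    ((hf.diff t ht).differentiable one_ne_zero _).hasFDerivAt
  have h3 := ((h2.comp z h1).const_smul (Real.exp (-(l * t)))).sub
    ((hasFDerivAt_id z).const_smul l)
  have h4 : Real.exp (-(l * t)) • (fderiv ℝ (f t) (Real.exp (l * t) • z) ∘L
      (Real.exp (l * t) • ContinuousLinearMap.id ℝ E)) - l • ContinuousLinearMap.id ℝ E =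
      fderiv ℝ (f t) (Real.exp (l * t) • z) - l • ContinuousLinearMap.id ℝ E := by
    congr 1
    rw [ContinuousLinearMap.comp_smul, ContinuousLinearMap.comp_id, smul_smul, ← Real.exp_add]
    simp
  rw [← h4]
  exact h3.fderiv

lemma pwc_smul {ω : ℝ → E} (hω : PiecewiseContinuous ω) {c : ℝ → ℝ} (hc : Continuous c) :
    PiecewiseContinuous (fun t => c t • ω t) := by
  obtain ⟨D, hD, hcc, hr, hl⟩ := hω
  refine ⟨D, hD, fun t ht htD => hc.continuousWithinAt.smul (hcc t ht htD), fun t ht => ?_,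
    fun t ht => ?_⟩
  · obtain ⟨l, hl⟩ := hr t ht
    exact ⟨c t • l, ((hc.tendsto t).mono_left nhdsWithin_le_nhds).smul hl⟩
  · obtain ⟨l, hl⟩ := hl t ht
    exact ⟨c t • l, ((hc.tendsto t).mono_left nhdsWithin_le_nhds).smul hl⟩

lemma pwc_sub_const {F : Type*} [NormedAddCommGroup F] {g : ℝ → F} (hg : PiecewiseContinuous g)
    (c : F) : PiecewiseContinuous (fun t => g t - c) := by
  obtain ⟨D, hD, hcc, hr, hl⟩ := hg
  refine ⟨D, hD, fun t ht htD => (hcc t ht htD).sub continuousWithinAt_const, fun t ht => ?_,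
    fun t ht => ?_⟩
  · obtain ⟨l, hl⟩ := hr t ht
    exact ⟨l - c, hl.sub tendsto_const_nhds⟩
  · obtain ⟨l, hl⟩ := hl t ht
    exact ⟨l - c, hl.sub tendsto_const_nhds⟩

lemma pwc_congr {F : Type*} [NormedAddCommGroup F] {g g' : ℝ → F} (hg : PiecewiseContinuous g)
    (h : ∀ t, 0 ≤ t → g' t = g t) : PiecewiseContinuous g' := by
  obtain ⟨D, hD, hcc, hr, hl⟩ := hg
  refine ⟨D, hD, fun t ht htD => (hcc t ht htD).congr (fun u hu => h u hu) (h t ht),
    fun t ht => ?_, fun t ht => ?_⟩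
  · obtain ⟨l, hl⟩ := hr t ht
    refine ⟨l, hl.congr' ?_⟩
    filter_upwards [self_mem_nhdsWithin] with u hu using (h u (ht.trans (le_of_lt hu))).symm
  · obtain ⟨l, hl⟩ := hl t ht
    refine ⟨l, hl.congr' ?_⟩
    filter_upwards [mem_nhdsWithin_of_mem_nhds (lt_mem_nhds ht)] with u hu using (h u hu.le).symm

lemma wgt_reg {f : ℝ → E → E} (hf : Reg0 f) (l : ℝ) : Reg0 (wgt f l) := by
  have hc1 : Continuous fun t : ℝ => Real.exp (l * t) := by fun_prop
  have h1 : Continuous fun p : ℝ × E => (p.1, Real.exp (l * p.1) • p.2) := by fun_prop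
  refine ⟨?_, ?_, ?_, ?_⟩
  · have a1 : ContinuousOn (fun p : ℝ × E => Function.uncurry f (p.1, Real.exp (l * p.1) • p.2))
        (Ici 0 ×ˢ univ) :=
      hf.cont.comp h1.continuousOn fun p hp => ⟨hp.1, mem_univ _⟩
    have a2 : Continuous (fun p : ℝ × E => Real.exp (-(l * p.1))) := by fun_prop
    have a3 : Continuous (fun p : ℝ × E => l • p.2) := by fun_prop
    exact (a2.continuousOn.smul a1).sub a3.continuousOn
  · intro t ht
    have := hf.diff t ht
    unfold wgt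
    exact ((this.comp (contDiff_const.smul contDiff_id)).const_smul _).sub
      (contDiff_const.smul contDiff_id)
  · have a1 : ContinuousOn (fun p : ℝ × E => fderiv ℝ (f p.1) (Real.exp (l * p.1) • p.2))
        (Ici 0 ×ˢ univ) :=
      hf.jcont.comp h1.continuousOn fun p hp => ⟨hp.1, mem_univ _⟩
    have a2 : ContinuousOn (fun p : ℝ × E => fderiv ℝ (f p.1) (Real.exp (l * p.1) • p.2) -
        l • ContinuousLinearMap.id ℝ E) (Ici 0 ×ˢ univ) := a1.sub continuousOn_const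
    exact a2.congr fun p hp => wgt_fderiv hf l hp.1 p.2
  · intro ω hω
    refine pwc_congr (pwc_sub_const (hf.pwc _ (pwc_smul hω hc1)) (l • ContinuousLinearMap.id ℝ E))
      fun t ht => wgt_fderiv hf l ht _

lemma wgt_sol {f : ℝ → E → E} {l t₀ : ℝ} {x : ℝ → E} (hx : IsSolution f t₀ x) :
    IsSolution (wgt f l) t₀ (fun t => Real.exp (-(l * t)) • x t) := by
  intro t ht
  have h1 : HasDerivWithinAt (fun t : ℝ => Real.exp (-(l * t))) (Real.exp (-(l * t)) * (-l))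
      (Ici t₀) t := by
    have h : HasDerivAt (fun t : ℝ => (-l) * t) ((-l) * 1) t := (hasDerivAt_id' t).const_mul (-l)
    have this : HasDerivAt (fun t : ℝ => -(l * t)) (-l) t :=
      (h.congr_deriv (mul_one _)).congr_of_eventuallyEq (Eventually.of_forall fun u => by ring)
    exact this.exp.hasDerivWithinAt
  have h2 := h1.smul (hx t ht)
  have h3 : wgt f l t (Real.exp (-(l * t)) • x t) =
      Real.exp (-(l * t)) • f t (x t) + (Real.exp (-(l * t)) * (-l)) • x t := by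
    unfold wgt
    rw [smul_smul, ← Real.exp_add]
    simp only [add_neg_cancel, Real.exp_zero, one_smul]
    rw [mul_neg, neg_smul, ← sub_eq_add_neg, smul_smul, mul_comm l (Real.exp (-(l * t)))]
  rw [h3]
  exact h2

/-- An evolution operator only depends on the coefficients on `[0,∞)`. -/
lemma evolution_congr {A A' : ℝ → E →L[ℝ] E} {T : ℝ → ℝ → E →L[ℝ] E} (hT : IsEvolution A T)
    (h : ∀ t, 0 ≤ t → A' t = A t) : IsEvolution A' T := by
  intro s hs v
  obtain ⟨h1, h2⟩ := hT s hs v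
  refine ⟨h1, fun t ht => ?_⟩
  rw [h2 t ht]
  congr 1
  apply intervalIntegral.integral_congr
  intro u hu
  have : 0 ≤ u := (le_min hs ht).trans hu.1
  simp only
  rw [h u this]

/-- **Alternative at the growth rate `λ`.** -/
theorem alternative [FiniteDimensional ℝ E] {f : ℝ → E → E} (hf : Reg0 f) (l : ℝ)
    (hG : ∀ ω : ℝ → E, PiecewiseContinuous ω → ∃ (T : ℝ → ℝ → E →L[ℝ] E) (P : ℝ → E →L[ℝ] E),
      IsEvolution (fun t => fderiv ℝ (f t) (ω t) - l • ContinuousLinearMap.id ℝ E) T ∧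
      (∀ t s, 0 ≤ t → 0 ≤ s → T t s ∘L P s = P t ∘L T t s) ∧
      ∃ K γ ε : ℝ, 1 ≤ K ∧ 0 ≤ ε ∧ ε < γ ∧
        (∀ t s, 0 ≤ s → s ≤ t → ‖T t s ∘L P s‖ ≤ K * Real.exp (-γ * (t - s) + ε * s)) ∧
        (∀ t s, 0 ≤ t → t ≤ s →
          ‖T t s ∘L (ContinuousLinearMap.id ℝ E - P s)‖ ≤ K * Real.exp (-γ * (s - t) + ε * s)))
    {t₀ : ℝ} (h0 : 0 ≤ t₀) {x y : ℝ → E} (hx : IsSolution f t₀ x) (hy : IsSolution f t₀ y) :
    (∃ C γ : ℝ, 0 < γ ∧ ∀ t, t₀ ≤ t → ‖x t - y t‖ ≤ C * Real.exp ((l - γ) * t)) ∨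
    (∃ c γ : ℝ, 0 < c ∧ 0 < γ ∧ ∀ᶠ t in atTop, c * Real.exp ((l + γ) * t) ≤ ‖x t - y t‖) := by
  have hc1 : Continuous fun t : ℝ => Real.exp (l * t) := by fun_prop
  have hn : ∀ t, ‖Real.exp (-(l * t)) • x t - Real.exp (-(l * t)) • y t‖ =
      Real.exp (-(l * t)) * ‖x t - y t‖ := by
    intro t
    rw [← smul_sub, norm_smul, Real.norm_of_nonneg (Real.exp_pos _).le]
  have hback : ∀ t, ‖x t - y t‖ = Real.exp (l * t) *
      ‖Real.exp (-(l * t)) • x t - Real.exp (-(l * t)) • y t‖ := by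
    intro t
    rw [hn, ← mul_assoc, ← Real.exp_add]
    simp
  rcases alternative0 (wgt_reg hf l) (fun ω hω => by
      obtain ⟨T, P, hT, h⟩ := hG _ (pwc_smul hω hc1)
      exact ⟨T, P, evolution_congr hT fun t ht => wgt_fderiv hf l ht _, h⟩) h0
      (wgt_sol (l := l) hx) (wgt_sol (l := l) hy) with ⟨C, γ, hγ, h⟩ | ⟨c, γ, hc, hγ, h⟩
  · left
    refine ⟨C, γ, hγ, fun t ht => ?_⟩
    rw [hback]
    calc Real.exp (l * t) * ‖Real.exp (-(l * t)) • x t - Real.exp (-(l * t)) • y t‖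
        ≤ Real.exp (l * t) * (C * Real.exp (-γ * t)) := by
          gcongr
          exact h t ht
      _ = C * (Real.exp (l * t) * Real.exp (-γ * t)) := by ring
      _ = C * Real.exp ((l - γ) * t) := by rw [← Real.exp_add]; congr 2; ring
  · right
    refine ⟨c, γ, hc, hγ, ?_⟩
    filter_upwards [h] with t ht
    rw [hback]
    calc c * Real.exp ((l + γ) * t) = Real.exp (l * t) * (c * Real.exp (γ * t)) := by
          rw [add_mul, Real.exp_add]; ring
      _ ≤ _ := by gcongr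

/-- **Asymptotic stability of every solution**, if all the linearizations are asymptotically
stable (without any rate). -/
theorem weak [FiniteDimensional ℝ E] {f : ℝ → E → E} (hf : Reg0 f)
    (hG : ∀ ω : ℝ → E, PiecewiseContinuous ω →
      ∃ T, IsEvolution (fun t => fderiv ℝ (f t) (ω t)) T ∧
        ∀ s, 0 ≤ s → Tendsto (fun t => ‖T t s‖) atTop (𝓝 0))
    {t₀ : ℝ} (h0 : 0 ≤ t₀) {y : ℝ → E} (hy : IsSolution f t₀ y) :
    (∀ η, 0 < η → ∃ δ, 0 < δ ∧
      ∀ x, IsSolution f t₀ x → ‖x t₀ - y t₀‖ < δ → ∀ t, t₀ ≤ t → ‖x t - y t‖ < η) ∧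
    (∀ x, IsSolution f t₀ x → Tendsto (fun t => x t - y t) atTop (𝓝 0)) := by
  have hcs : CompleteSpace E := FiniteDimensional.complete ℝ E
  set yt : ℝ → E := fun t => y (max t₀ t) with hyt
  have hytc : Continuous yt :=
    hy.continuousOn.comp_continuous (by fun_prop) fun t => mem_Ici.mpr (le_max_left _ _)
  have hyte : ∀ t, t₀ ≤ t → yt t = y t := by
    intro t ht; simp only [hyt, max_eq_right ht]
  have hz : ∀ x, IsSolution f t₀ x → IsSolution (sh f yt) t₀ (fun t => x t - y t) := by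
    intro x hx t ht
    have h1 := (hx t ht).sub (hy t ht)
    have h2 : sh f yt t (x t - y t) = f t (x t) - f t (y t) := by
      simp only [sh, hyte t ht, sub_add_cancel]
    rw [h2]
    exact h1
  have hG' : ∀ ω : ℝ → E, PiecewiseContinuous ω →
      PiecewiseContinuous (fun t => fderiv ℝ (sh f yt t) (ω t)) ∧
      ∃ T, IsEvolution (fun t => fderiv ℝ (sh f yt t) (ω t)) T ∧
        ∀ s, 0 ≤ s → (∃ C, ∀ t, s ≤ t → ‖T t s‖ ≤ C) ∧ Tendsto (fun t => ‖T t s‖) atTop (𝓝 0) := by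
    intro ω hω
    refine ⟨sh_pwc hf hytc ω hω, ?_⟩
    obtain ⟨T, hT, hTl⟩ := hG _ (pwc_add hω hytc)
    have hA := hf.pwc _ (pwc_add hω hytc)
    have h3 : (fun t => fderiv ℝ (sh f yt t) (ω t)) = fun t => fderiv ℝ (f t) (ω t + yt t) := by
      funext t
      rw [sh_fderiv]
    rw [h3]
    refine ⟨T, hT, fun s hs => ⟨?_, hTl s hs⟩⟩
    obtain ⟨b, hb⟩ := ((hTl s hs).eventually_le_const (zero_lt_one)).exists_forall_of_atTop
    obtain ⟨C, hC0, hC⟩ := hA.bounded (max b s)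
    refine ⟨max 1 (Real.exp (C * (max b s - s))), fun t ht => ?_⟩
    rcases le_total b t with hbt | hbt
    · exact (hb t hbt).trans (le_max_left _ _)
    · refine le_trans ?_ (le_max_right _ _)
      apply ContinuousLinearMap.opNorm_le_bound _ (Real.exp_pos _).le
      intro v
      have h1 := (hT.iSol hA hs v).fwd_bound hA hs ht (β := C)
        (fun u hu => hC u ⟨hs.trans hu.1, (hu.2.le.trans hbt).trans (le_max_left _ _)⟩) hC0
      rw [hT.self hs] at h1
      refine h1.trans ?_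
      gcongr
      exact hbt.trans (le_max_left _ _)
  obtain ⟨hst, hat⟩ := main_reg (sh_reg hf hytc) hG' h0
  refine ⟨fun η hη => ?_, fun x hx => hat _ (hz x hx)⟩
  obtain ⟨δ, hδ, h⟩ := hst η hη
  exact ⟨δ, hδ, fun x hx hd t ht => h _ (hz x hx) hd t ht⟩

end Pool.Agent.Y750.MY
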